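import Pool.Agent.H58.BR.Main

/-!
# MP_b1773a_an: block-radial Kakeya sets

Let the coordinates of `ℝⁿ` be divided into `m ≥ 2` nonempty blocks; `π i` is the block of the
coordinate `i`. A set `K` is block-radial if it depends only on the norms of the blocks, that is, if it
is invariant under the product of the orthogonal groups of the blocks. For `n = 4` and two blocks of
two coordinates these are the Reinhardt sets of `ℂ²`.

**Theorem.** A block-radial compact set `K` with a unit segment in every direction has Hausdorff
dimension at least `n - m + 4/3`; this is `n - 2/3` for two blocks.

Proof. The squares of the norms of two blocks on a segment of `K` with the direction `e` trace a plane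
curve `t ↦ (κ t² + α t + A, (1 - κ) t² + β t + B)` (after scaling) where `κ` is given by `e` and the
other numbers are arbitrary bounded functions of `κ`. The smooth map from `K` to the squares of these
norms and to the other coordinates reduces the theorem to the product of the union of such curves,
`1/4 ≤ κ ≤ 3/4`, and a cube. Two such curves with parameters at the distance `τ` may have contact of
order three, and a contact of order four is excluded: the resultant is a quartic polynomial `R` of `t`
with `R''' = 12 (κ - κ') W`, where `W` is linear in `t`, and if `W` and its counterpart for the second
curve are small, the curves are transversal. So the pairs `(t, t')` with points at distance at most `r`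
have area `O(r^{4/3} τ^{-2/3})` (`BR/Pair.lean`), and the energy of suitable measures on finitely many
curves is bounded uniformly (`BR/Planar.lean`, `BR/Energy.lean`).
-/

set_option autoImplicit false

open Pool.Agent.H58.BR

namespace Pool.Agent.Results.MP_b1773a_an.BlockRadial

/-- **Block-radial Kakeya sets.** Let `K` be a compact subset of `ℝⁿ` (`n` the number of elements of
`ι`) with a unit segment in every direction. Let the coordinates be divided into `m ≥ 2` blocks
(`m` the number of elements of `β`, `π i` the block of the coordinate `i`), and let `K` be invariant
under the rotations of the blocks: with `x` it contains all `y` whose blocks have the same norms as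
those of `x`. Then the Hausdorff dimension of `K` is at least `n - m + 4/3`. -/
theorem result {ι β : Type} [Fintype ι] [Fintype β] [DecidableEq β] (π : ι → β)
    (hπ : Function.Surjective π) (hβ : 2 ≤ Fintype.card β) (K : Set (EuclideanSpace ℝ ι))
    (hcompact : IsCompact K)
    (hsegments : ∀ e : EuclideanSpace ℝ ι, ‖e‖ = 1 → ∃ a : EuclideanSpace ℝ ι,
      ∀ t ∈ Set.Icc (0 : ℝ) 1, a + t • e ∈ K)
    (hblocks : ∀ x ∈ K, ∀ y : EuclideanSpace ℝ ι,
      (∀ b, ∑ i with π i = b, y i ^ 2 = ∑ i with π i = b, x i ^ 2) → y ∈ K) :
    ENNReal.ofReal ((Fintype.card ι : ℝ) - Fintype.card β + 4 / 3) ≤ dimH K := by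
  refine block_radial π hπ hβ K hcompact hsegments fun x hx y hxy => hblocks x hx y fun b => ?_
  have h : blockNorm π y b ^ 2 = blockNorm π x b ^ 2 := by rw [hxy]
  rw [blockNorm_sq, blockNorm_sq] at h
  exact h

end Pool.Agent.Results.MP_b1773a_an.BlockRadial
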