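import Pool.Agent.H69.Kk.Skew

set_option autoImplicit false
open MeasureTheory Set Metric
open scoped ENNReal
open Pool.Agent.H69.Kk Pool.Agent.H69.Kk.Pl

namespace Pool.Agent.Results.MP_b1773a_an.ContinuousBlocks

/-- **Kakeya sets with continuous selections of the segments**, in blocks of at most two (or
additively separable) variables.

(1) Only countably many slices are null.
(2) Two variables (sets in `ℝ^3`): for every continuous selection at most two slices are null.
(3) Closed sets which contain nondegenerate segments of the lines have positive measure.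
(4) Skew products of such families over arbitrary families of lines. -/
theorem result :
    (∀ (d : ℕ) (a : (Fin d → ℝ) → Fin d → ℝ) (p q : Fin d → ℝ), (∀ i, p i < q i) →
      Blocks a p q → {t : ℝ | volume ((fun v => a v + t • v) '' Icc p q) = 0}.Countable) ∧
    (∀ (a : (Fin 2 → ℝ) → Fin 2 → ℝ) (p q : Fin 2 → ℝ), (∀ i, p i < q i) →
      ContinuousOn a (Icc p q) →
      {t : ℝ | volume ((fun v => a v + t • v) '' Icc p q) = 0}.encard ≤ 2) ∧
    (∀ (d : ℕ) (K : Set (EuclideanSpace ℝ (Fin (d + 1)))) (a : ℕ → (Fin d → ℝ) → Fin d → ℝ)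
        (p q : Fin d → ℝ), IsClosed K → (∀ i, p i < q i) → (∀ j, Blocks (a j) p q) →
      (∀ v ∈ Icc p q, ∃ j, ∃ t1 t2 : ℝ, t1 < t2 ∧ ∀ t ∈ Icc t1 t2, pt t (a j v + t • v) ∈ K) →
      0 < volume K ∧ dimH K = (d + 1 : ℕ)) ∧
    (∀ (k m : ℕ) (a : Eu (m + 1) → Eu (m + 1)) (S : Set (sphere (0 : Eu (m + 1)) 1))
        (K : Set ((Fin k → ℝ) × Eu (m + 1))), IsClosed K → ContainsSegments a S K →
      (∀ β : ℝ, 0 < β → FamilyBound a S β → ENNReal.ofReal (k + β) ≤ dimH K) ∧
      (m = 1 → Measurable a → (volume : Measure (Eu (m + 1))).toSphere S ≠ 0 →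
        dimH K = ((k + m + 1 : ℕ) : ℝ≥0∞))) := by
  refine ⟨fun d a p q hpq h => tri d a p q hpq h.1 h.2, fun a p q hpq ha => ?_,
    fun d K a p q hK hpq ha h => closed_sets hK hpq ha h, fun k m a S K hK h => skew hK h⟩
  by_contra h
  push Not at h
  have h3 : (3 : ℕ∞) ≤ {t : ℝ | volume ((fun v => a v + t • v) '' Icc p q) = 0}.encard :=
    Order.add_one_le_of_lt h
  obtain ⟨T, hTs, hT⟩ := Set.exists_subset_encard_eq h3
  obtain ⟨x, y, z, hxy, hxz, hyz, rfl⟩ := Set.encard_eq_three.1 hT
  exact two hpq ha hxy hxz.symm hyz.symm (hTs (by simp)) (hTs (by simp)) (hTs (by simp))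

end Pool.Agent.Results.MP_b1773a_an.ContinuousBlocks
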