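import Mathlib
import Pool.Agent.H65.EF.Transfer

set_option autoImplicit false

/-!
# Kakeya sets whose lines of equal inclination form expanding fronts
-/

open MeasureTheory Set Metric
open scoped ENNReal RealInnerProductSpace

namespace Pool.Agent.Results.MP_b1773a_an.ExpandingFronts

noncomputable section

/-- `ℝ^n` -/
abbrev E (n : ℕ) := EuclideanSpace ℝ (Fin n)

/-- the point `(y, t)` of `ℝ^(k+1)`, for `y ∈ ℝ^k` and a height `t` -/
def pt {k : ℕ} (y : E k) (t : ℝ) : E (k + 1) :=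
  WithLp.toLp 2 (Fin.snoc (α := fun _ => ℝ) (fun i => y i) t)

/-- the cone `{c v : v ∈ D, 0 < c ≤ 1}` over a set `D` -/
def cone {k : ℕ} (D : Set (E k)) : Set (E k) := {x | ∃ v ∈ D, ∃ c ∈ Ioc (0:ℝ) 1, x = c • v}

/-- **Expanding fronts.** The line of slope `v ∈ D ⊆ ℝ^k` is the line through the point `(p v, h |v|)` of
`ℝ^(k+1)` in the direction `(v, 1)`. Suppose that, for each `u`, at the height `h u` the vectors `v` (if
`σ u = 1`) or `-v` (if `σ u = -1`) are outer normals at the points `p v` of the convex hull of the points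
`p w`, `w ∈ D`, `|w| = u`. For instance, all lines with `|v| = u` pass through one point depending on `u`.
If `K` contains, for each `v ∈ D`, a nondegenerate segment of the line on the side `σ |v| s > 0` of the
point `(p v, h |v|)`, then `K` has full Hausdorff dimension, and the volume of its `δ`-neighbourhood is at
least `c / log (1/δ)`. The functions `p`, `h`, `σ` and the set `K` are arbitrary. -/
theorem result (k : ℕ) (hk : 1 ≤ k) (K : Set (E (k + 1))) (D : Set (E k)) (p : E k → E k)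
    (h σ : ℝ → ℝ) (hσ : ∀ u, σ u = 1 ∨ σ u = -1)
    (hp : ∀ v ∈ D, ∀ w ∈ D, ‖v‖ = ‖w‖ → 0 ≤ σ ‖v‖ * ⟪v, p v - p w⟫)
    (hK : ∀ v ∈ D, ∃ α β : ℝ, α < β ∧ ∀ s ∈ Ioo α β, 0 < σ ‖v‖ * s ∧
      pt (p v) (h ‖v‖) + s • pt v 1 ∈ K)
    (hD : (MeasurableSet D ∧ volume D ≠ 0) ∨
      volume {u : ℝ | 0 < u ∧ volume (cone (D ∩ sphere 0 u)) ≠ 0} ≠ 0) :
    dimH K = ((k + 1 : ℕ) : ℝ≥0∞) ∧
    ∃ c : ℝ, 0 < c ∧ ∀ δ : ℝ, 0 < δ → δ < 1 / 2 →
      ENNReal.ofReal (c / Real.log (1 / δ)) ≤ volume (thickening δ K) :=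
  Pool.Agent.H65.EF.final hk K D p h σ hσ hp hK hD

end

end Pool.Agent.Results.MP_b1773a_an.ExpandingFronts
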