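import Pool.Agent.H53.KH.Asm3
import Pool.Agent.H53.KH.PREP
import Pool.Agent.H53.KH.COV
import Pool.Agent.H53.KH.CLSA
import Pool.Agent.H53.KH.CLSB
import Pool.Agent.H53.KH.CLSV
import Pool.Agent.H53.KH.GRID
import Pool.Agent.H53.KH.TIME
import Pool.Agent.H53.KH.PTSV
import Pool.Agent.H53.KH.ONE
import Pool.Agent.H53.KH.CHER
import Pool.Agent.H53.KH.GRD
import Pool.Agent.H53.KH.BLK
import Pool.Agent.H53.KH.THR
import Pool.Agent.H53.KH.AVG
import Pool.Agent.H53.KH.GOOD
import Pool.Agent.H53.KH.VOL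
import Pool.Agent.H53.KH.LINE
import Pool.Agent.H53.KH.SET
import Pool.Agent.H53.KH.NUMA
import Pool.Agent.H53.KH.NUMD
import Pool.Agent.H53.KH.PADS

set_option autoImplicit false

/-! # MP_b1773a_an: Hausdorff dimension of Kakeya sets from one dimension for each scale (Q1)

`IsKakeya K`: `K ⊆ ℝ^n` is compact and contains a unit segment in every direction (defined in
`Pool.Agent.H53.KD.Defs`). Write `L δ = log log (1/δ)`.

(1) Suppose that for some `n ≥ 2` some Kakeya set in `ℝ^n` has Hausdorff dimension less than `n`. Then there are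
arbitrarily small `δ > 0` such that for ALL `N ≥ log (1/δ) (L δ)⁵` there is a Kakeya set `K ⊆ ℝ^N` with
`|N_δ K| < δ ^ (N / (L δ)⁵)`.

(2) Hence, if for every sufficiently small `δ > 0` there is one dimension `N ≥ log (1/δ) (L δ)⁵` such that all Kakeya
sets `K ⊆ ℝ^N` satisfy `|N_δ K| ≥ δ ^ (N / (L δ)⁵)`, then for EVERY `n ≥ 2` every Kakeya set in `ℝ^n` has Hausdorff
dimension `n`.

The proof: a cover of a Kakeya set of small Hausdorff dimension is split into classes of radii
`(ρ^(2^(i+1)), ρ^(2^i)]`. For one class `i` and a proportion `≥ 1/((i+1)(i+2))` of the directions, a proportion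
`≥ 1/((i+1)(i+2))` of the segment lies in the balls of the class, which have a small total volume. A threshold tensor
power (points of `(ℝ^(n-1))^m × ℝ` for which a certain proportion of the `m` blocks lies in the set), with random
shears and shifts of the factors, contains full segments in all directions of `ℝ^(m(n-1)+1)`, if `m` is large compared
with `(i+1)⁴ log (1/δ)`. -/

namespace Pool.Agent.Results.MP_b1773a_an.HausdorffFromOneScale

open Metric MeasureTheory Pool.Agent.H53.KD Pool.Agent.H53.KH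

theorem small (n : ℕ) (hn : 2 ≤ n) (K : Set (E n)) (hK : IsKakeya K) (hd : dimH K < n) (η : ℝ) (hη : 0 < η) :
    ∃ δ : ℝ, 0 < δ ∧ δ < η ∧ ∀ N : ℕ, Real.log (1 / δ) * Real.log (Real.log (1 / δ)) ^ 5 ≤ N →
      ∃ K' : Set (E N), IsKakeya K' ∧
        volume (thickening δ K') < ENNReal.ofReal (δ ^ ((N : ℝ) / Real.log (Real.log (1 / δ)) ^ 5)) := by
  obtain ⟨q, hq, hqη, h⟩ := final3 PREP_main COV_main CLSA_main CLSB_main CLSV_main GRID_main TIME_main PTSV_main
    ONE_main CHER_main GRD_main BLK_main THR_main AVG_main GOOD_main VOL_main LINE_main SET_main NUMA_main NUMD_main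
    PADS_main n hn K hK hd η hη
  have hq' : (0:ℝ) < q := by exact_mod_cast hq
  have e1 : 1 / (1 / (q : ℝ)) = q := one_div_one_div _
  refine ⟨1 / q, by positivity, hqη, fun N hN => ?_⟩
  rw [e1] at hN ⊢
  obtain ⟨K', hK', hv⟩ := h N hN
  refine ⟨K', hK', hv.trans_eq ?_⟩
  congr 1
  rw [Real.rpow_def_of_pos (by positivity), one_div, Real.log_inv]
  congr 1
  ring

theorem result :
    -- (1) a counterexample to Q1 in any dimension gives very small neighbourhoods in all high dimensions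
    (∀ n : ℕ, 2 ≤ n → (∃ K : Set (E n), IsKakeya K ∧ dimH K < n) → ∀ η : ℝ, 0 < η →
      ∃ δ : ℝ, 0 < δ ∧ δ < η ∧ ∀ N : ℕ, Real.log (1 / δ) * Real.log (Real.log (1 / δ)) ^ 5 ≤ N →
        ∃ K : Set (E N), IsKakeya K ∧
          volume (thickening δ K) < ENNReal.ofReal (δ ^ ((N : ℝ) / Real.log (Real.log (1 / δ)) ^ 5))) ∧
    -- (2) for every small scale a lower bound in one high dimension: then Q1 in every dimension
    ((∃ η : ℝ, 0 < η ∧ ∀ δ : ℝ, 0 < δ → δ < η →
        ∃ N : ℕ, Real.log (1 / δ) * Real.log (Real.log (1 / δ)) ^ 5 ≤ N ∧ ∀ K : Set (E N), IsKakeya K →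
          ENNReal.ofReal (δ ^ ((N : ℝ) / Real.log (Real.log (1 / δ)) ^ 5)) ≤ volume (thickening δ K)) →
      ∀ n : ℕ, 2 ≤ n → ∀ K : Set (E n), IsKakeya K → dimH K = n) := by
  refine ⟨?_, ?_⟩
  · rintro n hn ⟨K, hK, hd⟩ η hη
    exact small n hn K hK hd η hη
  · rintro ⟨η, hη, h⟩ n hn K hK
    have h1 : dimH K ≤ n := by
      refine (dimH_mono (Set.subset_univ K)).trans ?_
      rw [Real.dimH_univ_eq_finrank]
      simp
    refine le_antisymm h1 (not_lt.1 fun hd => ?_)
    obtain ⟨δ, hδ, hδη, h2⟩ := small n hn K hK hd η hη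
    obtain ⟨N, hN, h3⟩ := h δ hδ hδη
    obtain ⟨K', hK', h4⟩ := h2 N hN
    exact absurd (h3 K' hK') (not_le.2 h4)

end Pool.Agent.Results.MP_b1773a_an.HausdorffFromOneScale
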